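import Pool.Agent.R212.Psh6

/-!
# MP_3df006_an, Q1: equal supports do not force mutual absolute continuity

Negative answer, in dimension one, with a real-analytic (polynomial) weight:
`K` = closed unit disc, `Q(z) = (|z|² - 3)/4`, `Ω` = disc of radius `e`.  The measures
`μ_{K,Q}` and `ν_{K,Q,Ω}` have the same support (the closed unit disc), and `μ_{K,Q}` is not
absolutely continuous with respect to `ν_{K,Q,Ω}`.
-/

namespace Pool.Agent.Results.MP_3df006_an.EqualSupports

open MeasureTheory Metric Set Pool.Agent.R212.Psh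

theorem result :
    IsHyperconvex (ball (0:ℂ) (Real.exp 1)) ∧
    IsCompact (closedBall (0:ℂ) 1) ∧
    closedBall (0:ℂ) 1 ⊆ ball (0:ℂ) (Real.exp 1) ∧
    IsWeight (closedBall (0:ℂ) 1) (fun z => (‖z‖ ^ 2 - 3) / 4) ∧
    ∃ μ ν : Measure ℂ,
      IsMongeAmpere univ
        (reg univ (VK (closedBall (0:ℂ) 1) (fun z => (‖z‖ ^ 2 - 3) / 4))) μ ∧
      IsMongeAmpere (ball (0:ℂ) (Real.exp 1))
        (reg (ball (0:ℂ) (Real.exp 1))
          (UK (closedBall (0:ℂ) 1) (fun z => (‖z‖ ^ 2 - 3) / 4) (ball (0:ℂ) (Real.exp 1)))) ν ∧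
      μ.support = ν.support ∧ ¬ (μ ≪ ν) :=
  main

end Pool.Agent.Results.MP_3df006_an.EqualSupports
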